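import Pool.Agent.Q85.CL.Defs2
import Pool.Agent.Q2.CL.LEL
import Pool.Agent.Q129.VD3.L1
import Pool.Agent.Q153.VD.Ker

/-!
Project CL (helper85), job L1: local bound of the integral of the length of the vorticity.
-/

set_option autoImplicit false

open MeasureTheory Set Metric Filter Topology
open scoped ContDiff
open H459R3.NS Pool.Agent.W268.NS Pool.Agent.Q67.VD Pool.Agent.W583.MD

namespace Pool.Agent.Q81.CL

open Pool.Agent.Q85.CL
open Pool.Agent.Q129.VD3 (crl str qf arg_pos qf_pos qf_sq abs_le_qf aI bI vort_eq str_le)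
open Pool.Agent.Q2.CL (pdd pd_sub_s pd_add_s pd_sum_s pd_comm_s pd_congr pd_eqI dt_pdI sm_dtI sm_lap)

/-! ### smooth fields -/

section

variable {v : Fin 3 → V → ℝ} (hv : ∀ i, ContDiff ℝ ∞ (v i))

include hv in
theorem sm_crl (a b : Fin 3) : ContDiff ℝ ∞ (crl v a b) :=
  (sm_pd (hv b) a).sub (sm_pd (hv a) b)

include hv in
theorem sm_str (a b : Fin 3) : ContDiff ℝ ∞ (str v a b) :=
  ContDiff.sum fun j _ => ((sm_pd (hv j) a).mul (sm_pd (hv b) j)).sub
    ((sm_pd (hv j) b).mul (sm_pd (hv a) j))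

include hv in
theorem sm_conv (b : Fin 3) : ContDiff ℝ ∞ (conv v b) :=
  ContDiff.sum fun j _ => (hv j).mul (sm_pd (hv b) j)

include hv in
theorem pd_convS (a b : Fin 3) (x : V) :
    pd a (conv v b) x = ∑ j, (v j x * pd a (pd j (v b)) x + pd a (v j) x * pd j (v b) x) := by
  have h := pd_sum_s (f := fun j y => v j y * pd j (v b) y)
    (fun j => (hv j).mul (sm_pd (hv b) j)) a x
  refine h.trans (Finset.sum_congr rfl fun j _ => pd_mul' (hv j) (sm_pd (hv b) j) a x)

theorem pd_lapS {f : V → ℝ} (hf : ContDiff ℝ ∞ f) (a : Fin 3) (x : V) :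
    pd a (lap f) x = lap (pd a f) x := by
  have h := pd_sum_s (f := fun j => pd j (pd j f)) (fun j => sm_pd (sm_pd hf j) j) a x
  refine h.trans (Finset.sum_congr rfl fun j _ => ?_)
  rw [pd_comm_s (sm_pd hf j) a j]
  exact pd_congr (Filter.Eventually.of_forall fun y => pd_comm_s hf a j y) j

theorem lap_subS {f g : V → ℝ} (hf : ContDiff ℝ ∞ f) (hg : ContDiff ℝ ∞ g) (x : V) :
    lap (fun y => f y - g y) x = lap f x - lap g x := by
  unfold lap
  rw [← Finset.sum_sub_distrib]
  refine Finset.sum_congr rfl fun j _ => ?_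
  have h1 : pd j (fun y => f y - g y) = fun y => pd j f y - pd j g y :=
    funext fun y => pd_sub_s hf hg j y
  rw [h1]
  exact pd_sub_s (sm_pd hf j) (sm_pd hg j) j x

include hv in
/-- the vorticity equation for smooth functions -/
theorem crl_eqS {q : V → ℝ} (hq : ContDiff ℝ ∞ q)
    {τ : Fin 3 → V → ℝ} (hτ : ∀ i, τ i = fun x => lap (v i) x - conv v i x - pd i q x)
    (a b : Fin 3) (x : V) : crl τ a b x = lap (crl v a b) x
      - (∑ j, v j x * pd j (crl v a b) x) - str v a b x := by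
  have h1 : ∀ a b, pd a (τ b) x = lap (pd a (v b)) x
      - (∑ j, (v j x * pd a (pd j (v b)) x + pd a (v j) x * pd j (v b) x)) - pd a (pd b q) x := by
    intro a b
    rw [hτ b, pd_sub_s ((sm_lap (hv b)).sub (sm_conv hv b)) (sm_pd hq b),
      pd_sub_s (sm_lap (hv b)) (sm_conv hv b), pd_lapS (hv b), pd_convS hv]
  have h2 : lap (crl v a b) x = lap (pd a (v b)) x - lap (pd b (v a)) x :=
    lap_subS (sm_pd (hv b) a) (sm_pd (hv a) b) x
  have h3 : ∀ j, pd j (crl v a b) x = pd a (pd j (v b)) x - pd b (pd j (v a)) x := by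
    intro j
    rw [pd_comm_s (hv b) a j, pd_comm_s (hv a) b j]
    exact pd_sub_s (sm_pd (hv b) a) (sm_pd (hv a) b) j x
  have h4 : crl τ a b x = pd a (τ b) x - pd b (τ a) x := rfl
  rw [h4, h1, h1, h2, pd_comm_s hq a b]
  simp_rw [h3]
  unfold str
  simp only [Finset.sum_sub_distrib, Finset.sum_add_distrib, mul_sub]
  ring

end

section

variable {w : Fin 3 → V → ℝ} (hw : ∀ i, ContDiff ℝ ∞ (w i))

include hw in
theorem sm_qf : ContDiff ℝ ∞ (qf 1 w) := by
  unfold qf
  exact ((ContDiff.sum fun i _ => (hw i).pow 2).add contDiff_const).sqrt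
    fun x => (arg_pos one_pos w x).ne'

include hw in
theorem pd_qfS (j : Fin 3) (x : V) :
    qf 1 w x * pd j (qf 1 w) x = ∑ i, w i x * pd j (w i) x := by
  have h1 : HasFDerivAt (fun y => ∑ i, w i y ^ 2 + (1 : ℝ) ^ 2)
      (∑ i, (2 * w i x) • fderiv ℝ (w i) x) x := by
    refine HasFDerivAt.add_const _ ?_
    refine HasFDerivAt.fun_sum fun i _ => ?_
    have := (pdd (hw i) x).hasFDerivAt.pow 2
    refine this.congr_fderiv ?_
    simp
  have h2 := h1.sqrt (arg_pos one_pos w x).ne'
  unfold pd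
  have h3 : fderiv ℝ (qf 1 w) x = _ := h2.fderiv
  rw [h3]
  simp only [_root_.smul_apply, _root_.sum_apply, smul_eq_mul]
  have hq := qf_pos one_pos w x
  have : √(∑ i, w i x ^ 2 + (1 : ℝ) ^ 2) = qf 1 w x := rfl
  rw [this, Finset.mul_sum, Finset.mul_sum]
  refine Finset.sum_congr rfl fun i _ => ?_
  field_simp

include hw in
/-- the Laplacian of the length -/
theorem lap_qf_ge (x : V) : ∑ i, lap (w i) x * w i x ≤ qf 1 w x * lap (qf 1 w) x := by
  have hq := sm_qf hw
  have key : ∀ j, ∑ i, pd j (pd j (w i)) x * w i x ≤ qf 1 w x * pd j (pd j (qf 1 w)) x := by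
    intro j
    have e1 : (fun y => qf 1 w y * pd j (qf 1 w) y) = fun y => ∑ i, w i y * pd j (w i) y :=
      funext fun y => pd_qfS hw j y
    have e2 := congrFun (congrArg (pd j) e1) x
    rw [pd_mul' hq (sm_pd hq j), pd_sum_s fun i => (hw i).mul (sm_pd (hw i) j)] at e2
    have e3 : ∀ i, pd j (fun y => w i y * pd j (w i) y) x =
        w i x * pd j (pd j (w i)) x + pd j (w i) x * pd j (w i) x := fun i =>
      pd_mul' (hw i) (sm_pd (hw i) j) j x
    simp_rw [e3] at e2
    rw [Finset.sum_add_distrib] at e2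
    have hp := qf_pos one_pos w x
    have hsq : qf 1 w x ^ 2 = ∑ i, w i x ^ 2 + (1 : ℝ) ^ 2 := qf_sq one_pos w x
    have cs := Finset.sum_mul_sq_le_sq_mul_sq Finset.univ (fun i => w i x) (fun i => pd j (w i) x)
    rw [← pd_qfS hw j x] at cs
    have hS : 0 ≤ ∑ i, pd j (w i) x ^ 2 := Finset.sum_nonneg fun i _ => sq_nonneg _
    have h1 : (qf 1 w x) ^ 2 * (pd j (qf 1 w) x) ^ 2 ≤ (qf 1 w x) ^ 2 * ∑ i, pd j (w i) x ^ 2 := by
      rw [mul_pow] at cs
      refine cs.trans ?_
      rw [hsq]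
      nlinarith
    have h2 : (pd j (qf 1 w) x) ^ 2 ≤ ∑ i, pd j (w i) x ^ 2 :=
      le_of_mul_le_mul_left h1 (by positivity)
    have e4 : ∑ i, pd j (w i) x * pd j (w i) x = ∑ i, pd j (w i) x ^ 2 :=
      Finset.sum_congr rfl fun i _ => by ring
    have e5 : ∑ i, w i x * pd j (pd j (w i)) x = ∑ i, pd j (pd j (w i)) x * w i x :=
      Finset.sum_congr rfl fun i _ => by ring
    rw [e4, e5] at e2
    nlinarith
  unfold lap
  rw [Finset.mul_sum]
  have e : ∑ i, (∑ j, pd j (pd j (w i)) x) * w i x = ∑ j, ∑ i, pd j (pd j (w i)) x * w i x := by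
    simp_rw [Finset.sum_mul]
    exact Finset.sum_comm
  rw [e]
  exact Finset.sum_le_sum fun j _ => key j

end

/-! ### one time -/

/-- the components of the vorticity -/
noncomputable def wv (v : V → V) (i : Fin 3) : V → ℝ := crl (fun i y => v y i) (aI i) (bI i)

theorem wv_sq_le (v : V → V) (x : V) : ∑ i, wv v i x ^ 2 ≤ 2 * W221.NS.gsq v x := by
  unfold wv crl W221.NS.gsq
  simp only [Fin.sum_univ_three, aI, bI, Matrix.cons_val_zero, Matrix.cons_val_one,
    Matrix.cons_val]
  set a := pd 1 (fun y => v y 2) x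
  set b := pd 2 (fun y => v y 1) x
  set c := pd 2 (fun y => v y 0) x
  set d := pd 0 (fun y => v y 2) x
  set e := pd 0 (fun y => v y 1) x
  set f := pd 1 (fun y => v y 0) x
  nlinarith [sq_nonneg (a + b), sq_nonneg (c + d), sq_nonneg (e + f),
    sq_nonneg (pd 0 (fun y => v y 0) x), sq_nonneg (pd 1 (fun y => v y 1) x),
    sq_nonneg (pd 2 (fun y => v y 2) x)]

/-- the differential inequality at one time -/
theorem one_timeL {O : Set V} (hO : IsOpen O) {v : V → V} (hv : SM v)
    (hdiv : ∀ x ∈ O, ∑ i, pd i (fun y => v y i) x = 0) {q : V → ℝ} (hq : ContDiff ℝ ∞ q)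
    {τ : Fin 3 → V → ℝ} (hτs : ∀ i, ContDiff ℝ ∞ (τ i)) (hτ : ∀ i, ∀ x ∈ O, τ i x =
      lap (fun y => v y i) x - conv (fun i y => v y i) i x - pd i q x)
    {χ : V → ℝ} (hχ : ContDiff ℝ ∞ χ) (h0 : ∀ x, 0 ≤ χ x) (h1 : ∀ x, χ x ≤ 1)
    {S : Set V} (hS : IsCompact S) (hSO : S ⊆ O) (hχS : tsupport χ ⊆ S)
    {D : ℝ} (hD0 : 0 ≤ D) (hD1 : ∀ j x, |pd j χ x| ≤ D) (hD2 : ∀ x, |lap χ x| ≤ D) :
    ∫ x, (∑ i, wv v i x * crl τ (aI i) (bI i) x) / qf 1 (wv v) x * χ x
      ≤ (8 * D + 18) * (∫ x in S, W221.NS.gsq v x) + D * (∫ x in S, W221.NS.nsq v x)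
        + 5 * D * volume.real S := by
  have hv' : ∀ i, ContDiff ℝ ∞ ((fun i y => v y i : Fin 3 → V → ℝ) i) := hv
  have hw : ∀ i, ContDiff ℝ ∞ (wv v i) := fun i => sm_crl hv' _ _
  have hQ := sm_qf hw
  have hχc : HasCompactSupport χ := hS.of_isClosed_subset (isClosed_tsupport χ) hχS
  have hSm : MeasurableSet S := hS.measurableSet
  have hzt : ∀ z ∉ S, χ z = 0 := fun z hz =>
    image_eq_zero_of_notMem_tsupport fun h => hz (hχS h)
  have hloc : ∀ x ∉ S, χ =ᶠ[𝓝 x] fun _ => 0 := fun x hx =>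
    notMem_tsupport_iff_eventuallyEq.mp fun h => hx (hχS h)
  have hpd0 : ∀ x ∉ S, ∀ j, pd j χ x = 0 := by
    intro x hx j
    rw [pd_congr (hloc x hx) j]
    exact Pool.Agent.Q2.CL.pd_zero j x
  have hlap0 : ∀ x ∉ S, lap χ x = 0 := by
    intro x hx
    unfold lap
    refine Finset.sum_eq_zero fun j _ => ?_
    have e := Pool.Agent.Q2.CL.pd_congr' (hloc x hx) j
    have e2 : pd j (fun _ : V => (0 : ℝ)) = fun _ => 0 :=
      funext fun y => Pool.Agent.Q2.CL.pd_zero j y
    rw [e2] at e
    rw [pd_congr e j]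
    exact Pool.Agent.Q2.CL.pd_zero j x
  -- the vorticity equation on `O`
  have hcrl : ∀ x ∈ O, ∀ i, crl τ (aI i) (bI i) x = lap (wv v i) x
      - (∑ j, v x j * pd j (wv v i) x) - str (fun i y => v y i) (aI i) (bI i) x := by
    intro x hx i
    set τ' : Fin 3 → V → ℝ := fun i x => lap (fun y => v y i) x
      - conv (fun i y => v y i) i x - pd i q x with hτ'
    have e1 := crl_eqS hv' hq (τ := τ') (fun i => rfl) (aI i) (bI i) x
    have e2 : ∀ i, τ i =ᶠ[𝓝 x] τ' i := by
      intro i
      filter_upwards [hO.mem_nhds hx] with y hy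
      exact hτ i y hy
    have e3 : crl τ (aI i) (bI i) x = crl τ' (aI i) (bI i) x := by
      unfold crl
      rw [pd_congr (e2 _) _, pd_congr (e2 _) _]
    rw [e3, e1]
    rfl
  -- pointwise bound
  have hpt : ∀ x, (∑ i, wv v i x * crl τ (aI i) (bI i) x) / qf 1 (wv v) x * χ x ≤
      χ x * lap (qf 1 (wv v)) x - (∑ j, (χ x * v x j) * pd j (qf 1 (wv v)) x)
        + 18 * (χ x * W221.NS.gsq v x) := by
    intro x
    by_cases hx : x ∈ S
    · have hxO := hSO hx
      have hp := qf_pos one_pos (wv v) x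
      have a1 : ∑ i, wv v i x * crl τ (aI i) (bI i) x =
          (∑ i, lap (wv v i) x * wv v i x) - (∑ j, v x j * ∑ i, wv v i x * pd j (wv v i) x)
          - ∑ i, wv v i x * str (fun i y => v y i) (aI i) (bI i) x := by
        have e1 : ∀ i, wv v i x * crl τ (aI i) (bI i) x = lap (wv v i) x * wv v i x
            - (∑ j, v x j * (wv v i x * pd j (wv v i) x))
            - wv v i x * str (fun i y => v y i) (aI i) (bI i) x := by
          intro i
          rw [hcrl x hxO i, mul_sub, mul_sub, Finset.mul_sum]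
          congr 2
          · ring
          · exact Finset.sum_congr rfl fun j _ => by ring
        rw [Finset.sum_congr rfl fun i _ => e1 i, Finset.sum_sub_distrib,
          Finset.sum_sub_distrib, Finset.sum_comm]
        congr 2
        exact Finset.sum_congr rfl fun j _ => (Finset.mul_sum _ _ _).symm
      have a2 : ∀ j, ∑ i, wv v i x * pd j (wv v i) x =
          qf 1 (wv v) x * pd j (qf 1 (wv v)) x := fun j => (pd_qfS hw j x).symm
      simp_rw [a2] at a1
      have a3 := lap_qf_ge hw x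
      have a4 : -(∑ i, wv v i x * str (fun i y => v y i) (aI i) (bI i) x) ≤
          qf 1 (wv v) x * (18 * W221.NS.gsq v x) := by
        have b1 : ∀ i, -(wv v i x * str (fun i y => v y i) (aI i) (bI i) x) ≤
            qf 1 (wv v) x * (6 * W221.NS.gsq v x) := by
          intro i
          have c1 := abs_le_qf one_pos (wv v) i x
          have c2 := str_le (fun i y => v y i) (aI i) (bI i) x
          have c3 : |wv v i x * str (fun i y => v y i) (aI i) (bI i) x| ≤
              qf 1 (wv v) x * (6 * W221.NS.gsq v x) := by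
            rw [abs_mul]
            exact mul_le_mul c1 c2 (abs_nonneg _) hp.le
          exact (neg_le_abs _).trans c3
        rw [← Finset.sum_neg_distrib]
        refine (Finset.sum_le_sum fun i _ => b1 i).trans (le_of_eq ?_)
        simp only [Finset.sum_const, Finset.card_univ, Fintype.card_fin, nsmul_eq_mul]
        push_cast
        ring
      have a5 : (∑ i, wv v i x * crl τ (aI i) (bI i) x) / qf 1 (wv v) x ≤
          lap (qf 1 (wv v)) x - (∑ j, v x j * pd j (qf 1 (wv v)) x)
            + 18 * W221.NS.gsq v x := by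
        rw [div_le_iff₀ hp, a1]
        have e2 : ∑ j, v x j * (qf 1 (wv v) x * pd j (qf 1 (wv v)) x) =
            qf 1 (wv v) x * ∑ j, v x j * pd j (qf 1 (wv v)) x := by
          rw [Finset.mul_sum]
          exact Finset.sum_congr rfl fun j _ => by ring
        rw [e2]
        nlinarith
      have a6 := mul_le_mul_of_nonneg_right a5 (h0 x)
      refine a6.trans (le_of_eq ?_)
      have e3 : ∑ j, (χ x * v x j) * pd j (qf 1 (wv v)) x =
          χ x * ∑ j, v x j * pd j (qf 1 (wv v)) x := by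
        rw [Finset.mul_sum]
        exact Finset.sum_congr rfl fun j _ => by ring
      rw [e3]
      ring
    · rw [hzt x hx]
      simp
  -- integrability
  have hcts : ∀ i, Continuous (crl τ (aI i) (bI i)) := fun i => (sm_crl hτs _ _).continuous
  have iL : Integrable fun x => (∑ i, wv v i x * crl τ (aI i) (bI i) x) / qf 1 (wv v) x * χ x := by
    refine int_cs ?_ hχc.mul_left
    refine (Continuous.div ?_ hQ.continuous fun x => (qf_pos one_pos (wv v) x).ne').mul
      hχ.continuous
    exact continuous_finsetSum _ fun i _ => (hw i).continuous.mul (hcts i)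
  have hg : Continuous (W221.NS.gsq v) := by
    unfold W221.NS.gsq
    exact continuous_finsetSum _ fun i _ => continuous_finsetSum _ fun j _ =>
      (sm_pd (hv i) j).continuous.pow 2
  have hn : Continuous (W221.NS.nsq v) := by
    unfold W221.NS.nsq
    exact continuous_finsetSum _ fun i _ => (hv i).continuous.pow 2
  have i1 : Integrable fun x => χ x * lap (qf 1 (wv v)) x :=
    int_cs (hχ.continuous.mul (sm_lap hQ).continuous) hχc.mul_right
  have i2 : ∀ j, Integrable fun x => (χ x * v x j) * pd j (qf 1 (wv v)) x := fun j =>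
    int_cs ((hχ.continuous.mul (hv j).continuous).mul (sm_pd hQ j).continuous)
      (hχc.mul_right.mul_right)
  have i3 : Integrable fun x => 18 * (χ x * W221.NS.gsq v x) :=
    (int_cs (hχ.continuous.mul hg) hχc.mul_right).const_mul 18
  have i23 : Integrable fun x => ∑ j, (χ x * v x j) * pd j (qf 1 (wv v)) x :=
    integrable_finsetSum _ fun j _ => i2 j
  have i12 : Integrable fun x => χ x * lap (qf 1 (wv v)) x
      - ∑ j, (χ x * v x j) * pd j (qf 1 (wv v)) x := i1.sub i23
  have hmono : ∫ x, (∑ i, wv v i x * crl τ (aI i) (bI i) x) / qf 1 (wv v) x * χ x ≤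
      ∫ x, ((χ x * lap (qf 1 (wv v)) x - ∑ j, (χ x * v x j) * pd j (qf 1 (wv v)) x)
        + 18 * (χ x * W221.NS.gsq v x)) := integral_mono iL (i12.add i3) hpt
  refine hmono.trans ?_
  rw [integral_add i12 i3, integral_sub i1 i23, integral_finsetSum _ fun j _ => i2 j,
    integral_const_mul]
  -- integration by parts
  have p1 : ∫ x, χ x * lap (qf 1 (wv v)) x = ∫ x, qf 1 (wv v) x * lap χ x := by
    have e1 : ∀ j, ∫ x, χ x * pd j (pd j (qf 1 (wv v))) x =
        ∫ x, qf 1 (wv v) x * pd j (pd j χ) x := by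
      intro j
      rw [Pool.Agent.Q153.VD.ibp_cs hQ (sm_pd hχ j) (cs_pd hχc j) j]
      have e2 := Pool.Agent.Q153.VD.ibp_cs (sm_pd hQ j) hχ hχc j
      rw [e2, neg_neg]
      congr 1
      funext x
      ring
    have e3 : ∀ x, χ x * lap (qf 1 (wv v)) x = ∑ j, χ x * pd j (pd j (qf 1 (wv v))) x := fun x =>
      Finset.mul_sum _ _ _
    have e4 : ∀ x, qf 1 (wv v) x * lap χ x = ∑ j, qf 1 (wv v) x * pd j (pd j χ) x := fun x =>
      Finset.mul_sum _ _ _
    simp_rw [e3, e4]
    rw [integral_finsetSum _ fun j _ => ?_, integral_finsetSum _ fun j _ => ?_]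
    · exact Finset.sum_congr rfl fun j _ => e1 j
    · exact int_cs (hQ.continuous.mul (sm_pd (sm_pd hχ j) j).continuous)
        (cs_pd (cs_pd hχc j) j).mul_left
    · exact int_cs (hχ.continuous.mul (sm_pd (sm_pd hQ j) j).continuous) hχc.mul_right
  have p2 : -(∑ j, ∫ x, (χ x * v x j) * pd j (qf 1 (wv v)) x) =
      ∫ x, qf 1 (wv v) x * ∑ j, v x j * pd j χ x := by
    have e1 : ∀ j, -(∫ x, (χ x * v x j) * pd j (qf 1 (wv v)) x) =
        ∫ x, qf 1 (wv v) x * pd j (fun y => χ y * v y j) x := by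
      intro j
      rw [Pool.Agent.Q153.VD.ibp_cs hQ (hχ.mul (hv j)) hχc.mul_right j]
      congr 1
      congr 1
      funext x
      ring
    have e5 : ∀ j ∈ Finset.univ, Integrable fun x : V =>
        qf 1 (wv v) x * pd j (fun y => χ y * v y j) x := fun j _ =>
      int_cs (hQ.continuous.mul (sm_pd (hχ.mul (hv j)) j).continuous)
        (cs_pd hχc.mul_right j).mul_left
    rw [← Finset.sum_neg_distrib, Finset.sum_congr rfl fun j _ => e1 j,
      ← integral_finsetSum _ e5]
    congr 1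
    funext x
    rw [← Finset.mul_sum]
    congr 1
    have e2 : ∀ j, pd j (fun y => χ y * v y j) x = χ x * pd j (fun y => v y j) x
        + v x j * pd j χ x := by
      intro j
      rw [pd_mul' hχ (hv j)]
      ring
    rw [Finset.sum_congr rfl fun j _ => e2 j, Finset.sum_add_distrib, ← Finset.mul_sum]
    by_cases hx : x ∈ S
    · rw [hdiv x (hSO hx), mul_zero, zero_add]
    · rw [hzt x hx, zero_mul, zero_add]
  rw [p1, sub_eq_add_neg, p2]
  -- the bounds
  have hfin : volume S ≠ ⊤ := hS.measure_lt_top.ne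
  have jg : IntegrableOn (W221.NS.gsq v) S := hg.continuousOn.integrableOn_compact hS
  have jn : IntegrableOn (W221.NS.nsq v) S := hn.continuousOn.integrableOn_compact hS
  have jc : IntegrableOn (fun _ : V => (1 : ℝ)) S := integrableOn_const hfin
  have hadv : Continuous fun x => ∑ j, v x j * pd j χ x :=
    continuous_finsetSum _ fun j _ => (hv j).continuous.mul (sm_pd hχ j).continuous
  have k1 : Integrable fun x => qf 1 (wv v) x * lap χ x := by
    have e4 : ∀ x, qf 1 (wv v) x * lap χ x = ∑ j, qf 1 (wv v) x * pd j (pd j χ) x := fun x =>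
      Finset.mul_sum _ _ _
    simp_rw [e4]
    exact integrable_finsetSum _ fun j _ => int_cs (hQ.continuous.mul
      (sm_pd (sm_pd hχ j) j).continuous) (cs_pd (cs_pd hχc j) j).mul_left
  have k2 : Integrable fun x => qf 1 (wv v) x * ∑ j, v x j * pd j χ x := by
    simp_rw [Finset.mul_sum]
    exact integrable_finsetSum _ fun j _ => int_cs (hQ.continuous.mul
      ((hv j).continuous.mul (sm_pd hχ j).continuous)) ((cs_pd hχc j).mul_left.mul_left)
  have hA : (∫ x, qf 1 (wv v) x * lap χ x) + ∫ x, qf 1 (wv v) x * ∑ j, v x j * pd j χ x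
      ≤ ∫ x in S, (8 * D * W221.NS.gsq v x + (D * W221.NS.nsq v x + 5 * D * 1)) := by
    rw [← integral_add k1 k2, ← integral_indicator hSm]
    refine integral_mono (k1.add k2) ?_ fun x => ?_
    · exact (integrable_indicator_iff hSm).2 ((jg.const_mul (8 * D)).add
        ((jn.const_mul D).add (jc.const_mul (5 * D))))
    · show qf 1 (wv v) x * lap χ x + qf 1 (wv v) x * (∑ j, v x j * pd j χ x) ≤ _
      by_cases hx : x ∈ S
      · rw [indicator_of_mem hx]
        have hp := qf_pos one_pos (wv v) x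
        have hsq : qf 1 (wv v) x ^ 2 = ∑ i, wv v i x ^ 2 + (1 : ℝ) ^ 2 := qf_sq one_pos (wv v) x
        have hwq := wv_sq_le v x
        have hq1 : qf 1 (wv v) x ≤ 1 + qf 1 (wv v) x ^ 2 := by
          nlinarith [sq_nonneg (qf 1 (wv v) x - 1)]
        have t1 : qf 1 (wv v) x * lap χ x ≤ D * (1 + qf 1 (wv v) x ^ 2) := by
          calc qf 1 (wv v) x * lap χ x ≤ qf 1 (wv v) x * D :=
                mul_le_mul_of_nonneg_left ((le_abs_self _).trans (hD2 x)) hp.le
            _ ≤ D * (1 + qf 1 (wv v) x ^ 2) := by nlinarith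
        have t2 : qf 1 (wv v) x * (∑ j, v x j * pd j χ x) ≤
            D * (3 * qf 1 (wv v) x ^ 2 + W221.NS.nsq v x) := by
          have u1 : ∀ j, qf 1 (wv v) x * (v x j * pd j χ x) ≤
              D * (qf 1 (wv v) x ^ 2 + v x j ^ 2) := by
            intro j
            have b1 : |qf 1 (wv v) x * (v x j * pd j χ x)| ≤ qf 1 (wv v) x * (|v x j| * D) := by
              rw [abs_mul, abs_mul, abs_of_pos hp]
              exact mul_le_mul_of_nonneg_left
                (mul_le_mul_of_nonneg_left (hD1 j x) (abs_nonneg _)) hp.le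
            have b2 : qf 1 (wv v) x * |v x j| ≤ qf 1 (wv v) x ^ 2 + v x j ^ 2 := by
              rw [← sq_abs (v x j)]
              nlinarith [sq_nonneg (qf 1 (wv v) x - |v x j|), sq_nonneg (|v x j|),
                sq_nonneg (qf 1 (wv v) x)]
            calc qf 1 (wv v) x * (v x j * pd j χ x) ≤ qf 1 (wv v) x * (|v x j| * D) :=
                  (le_abs_self _).trans b1
              _ = D * (qf 1 (wv v) x * |v x j|) := by ring
              _ ≤ D * (qf 1 (wv v) x ^ 2 + v x j ^ 2) := mul_le_mul_of_nonneg_left b2 hD0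
          rw [Finset.mul_sum]
          refine (Finset.sum_le_sum fun j _ => u1 j).trans (le_of_eq ?_)
          rw [← Finset.mul_sum, Finset.sum_add_distrib]
          simp only [Finset.sum_const, Finset.card_univ, Fintype.card_fin, nsmul_eq_mul,
            W221.NS.nsq]
          push_cast
          ring
        have hsq2 : qf 1 (wv v) x ^ 2 ≤ 2 * W221.NS.gsq v x + 1 := by
          rw [hsq]
          linarith
        have h4 : D * (1 + qf 1 (wv v) x ^ 2) + D * (3 * qf 1 (wv v) x ^ 2 + W221.NS.nsq v x) =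
            D * (4 * qf 1 (wv v) x ^ 2) + D * (1 + W221.NS.nsq v x) := by ring
        have h5 : D * (4 * qf 1 (wv v) x ^ 2) ≤ D * (4 * (2 * W221.NS.gsq v x + 1)) :=
          mul_le_mul_of_nonneg_left (by linarith) hD0
        linarith
      · rw [indicator_of_notMem hx, hlap0 x hx]
        have : ∑ j, v x j * pd j χ x = 0 := Finset.sum_eq_zero fun j _ => by
          rw [hpd0 x hx j, mul_zero]
        rw [this]
        simp
  have hB : ∫ x, χ x * W221.NS.gsq v x ≤ ∫ x in S, W221.NS.gsq v x := by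
    rw [← integral_indicator hSm]
    refine integral_mono (int_cs (hχ.continuous.mul hg) hχc.mul_right)
      ((integrable_indicator_iff hSm).2 jg) fun x => ?_
    have hgn : 0 ≤ W221.NS.gsq v x :=
      Finset.sum_nonneg fun i _ => Finset.sum_nonneg fun j _ => sq_nonneg _
    show χ x * W221.NS.gsq v x ≤ _
    by_cases hx : x ∈ S
    · rw [indicator_of_mem hx]
      have := h1 x
      nlinarith
    · rw [indicator_of_notMem hx, hzt x hx, zero_mul]
  have jnc : IntegrableOn (fun x => D * W221.NS.nsq v x + 5 * D * 1) S :=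
    (jn.const_mul D).add (jc.const_mul (5 * D))
  rw [integral_add (jg.const_mul (8 * D)) jnc,
    integral_add (jn.const_mul D) (jc.const_mul (5 * D)), integral_const_mul, integral_const_mul,
    integral_const_mul] at hA
  have hc : ∫ x in S, (1 : ℝ) = volume.real S := by simp
  rw [hc] at hA
  linarith

/-! ### in time -/

theorem cdo_pd {T : ℝ} {f : ℝ → V → ℝ}
    (hf : ContDiffOn ℝ ∞ (fun z : ℝ × V => f z.1 z.2) (Ioo 0 T ×ˢ univ)) (j : Fin 3) :
    ContDiffOn ℝ ∞ (fun z : ℝ × V => pd j (f z.1) z.2) (Ioo 0 T ×ˢ univ) := by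
  have hO : IsOpen (Ioo 0 T ×ˢ (univ : Set V)) := isOpen_Ioo.prod isOpen_univ
  have h1 : ContDiffOn ℝ ∞ (fderiv ℝ (fun z : ℝ × V => f z.1 z.2)) (Ioo 0 T ×ˢ univ) :=
    hf.fderiv_of_isOpen hO (by norm_cast)
  have h2 : ContDiffOn ℝ ∞ (fun z : ℝ × V => fderiv ℝ (fun z : ℝ × V => f z.1 z.2) z
      (0, Pi.single j 1)) (Ioo 0 T ×ˢ univ) := h1.clm_apply contDiffOn_const
  exact h2.congr fun z hz => pd_eqI hf hz.1 j z.2

theorem l1L : StmL1L := by
  intro T E O u p hT h a R T₀ hR hRO hT₀ hT₀T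
  -- the cut-off
  let b : ContDiffBump a := ⟨R / 2, R, by positivity, by linarith⟩
  let χ : V → ℝ := ⇑b
  have hχd : χ = ⇑b := rfl
  have hχ : ContDiff ℝ ∞ χ := b.contDiff
  have hχ0 : ∀ x, 0 ≤ χ x := fun x => b.nonneg
  have hχ1 : ∀ x, χ x ≤ 1 := fun x => b.le_one
  have hχ2 : ∀ x ∈ closedBall a (R / 2), χ x = 1 := fun x hx => b.one_of_mem_closedBall hx
  have hχc : HasCompactSupport χ := b.hasCompactSupport
  set S : Set V := closedBall a R with hS
  have hχS : tsupport χ ⊆ S := by
    rw [hχd, b.tsupport_eq]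
  have hSc : IsCompact S := isCompact_closedBall a R
  -- bounds for the derivatives
  have hb1 : ∀ j, ∃ C, ∀ x, ‖pd j χ x‖ ≤ C := fun j =>
    (sm_pd hχ j).continuous.bounded_above_of_compact_support (cs_pd hχc j)
  have hb2 : ∀ j, ∃ C, ∀ x, ‖pd j (pd j χ) x‖ ≤ C := fun j =>
    (sm_pd (sm_pd hχ j) j).continuous.bounded_above_of_compact_support (cs_pd (cs_pd hχc j) j)
  choose C1 hC1 using hb1
  choose C2 hC2 using hb2
  have hC1' : ∀ j, 0 ≤ C1 j := fun j => (norm_nonneg _).trans (hC1 j 0)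
  have hC2' : ∀ j, 0 ≤ C2 j := fun j => (norm_nonneg _).trans (hC2 j 0)
  set D : ℝ := ∑ j, (C1 j + C2 j) with hD
  have hD0 : 0 ≤ D := Finset.sum_nonneg fun j _ => add_nonneg (hC1' j) (hC2' j)
  have hD1 : ∀ j x, |pd j χ x| ≤ D := by
    intro j x
    have e1 := Finset.single_le_sum (f := fun j => C1 j + C2 j)
      (fun j _ => add_nonneg (hC1' j) (hC2' j)) (Finset.mem_univ j)
    have e2 := hC1 j x
    rw [Real.norm_eq_abs] at e2
    have e3 := hC2' j
    linarith
  have hD2 : ∀ x, |lap χ x| ≤ D := by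
    intro x
    unfold lap
    refine (Finset.abs_sum_le_sum_abs _ _).trans (Finset.sum_le_sum fun j _ => ?_)
    have e2 := hC2 j x
    rw [Real.norm_eq_abs] at e2
    have e3 := hC1' j
    linarith
  -- smoothness
  have hvi : ∀ i, ContDiffOn ℝ ∞ (fun z : ℝ × V => u z.1 z.2 i) (Ioo 0 T ×ˢ univ) :=
    fun i => contDiffOn_pi.1 h.smooth_u i
  have hsl : ∀ t ∈ Ioo 0 T, SM (u t) := fun t ht i =>
    slice (F := fun t y => u t y i) (hvi i) ht
  have hwt : ∀ i, ContDiffOn ℝ ∞ (fun z : ℝ × V => wv (u z.1) i z.2) (Ioo 0 T ×ˢ univ) := fun i =>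
    (cdo_pd (f := fun s y => u s y (bI i)) (hvi _) (aI i)).sub
      (cdo_pd (f := fun s y => u s y (aI i)) (hvi _) (bI i))
  have hqt : ContDiffOn ℝ ∞ (fun z : ℝ × V => qf 1 (wv (u z.1)) z.2) (Ioo 0 T ×ˢ univ) := by
    unfold qf
    refine ContDiffOn.sqrt ?_ fun z _ => (arg_pos one_pos (wv (u z.1)) z.2).ne'
    exact (ContDiffOn.sum fun i _ => (hwt i).pow 2).add contDiffOn_const
  have hΦ : ContDiffOn ℝ ∞ (fun z : ℝ × V => χ z.2) (Ioo 0 T ×ˢ univ) :=
    (hχ.comp contDiff_snd).contDiffOn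
  have hF : ContDiffOn ℝ ∞ (fun z : ℝ × V => qf 1 (wv (u z.1)) z.2 * χ z.2)
      (Ioo 0 T ×ˢ univ) := hqt.mul hΦ
  obtain ⟨R', hR'⟩ : ∃ R : ℝ, tsupport χ ⊆ closedBall (0 : V) R :=
    hχc.isCompact.isBounded.subset_closedBall 0
  have hz0 : ∀ z ∉ closedBall (0 : V) R', χ z = 0 := fun z hz =>
    image_eq_zero_of_notMem_tsupport fun h => hz (hR' h)
  set H : ℝ → ℝ := fun s => ∫ x, qf 1 (wv (u s)) x * χ x with hH
  set g : ℝ → ℝ := fun s => ∫ x in S, W221.NS.gsq (u s) x with hg
  set Φ : ℝ → ℝ := fun s => (8 * D + 18) * g s + (D * E + 5 * D * volume.real S) with hΦd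
  -- the derivative
  have hder : ∀ t ∈ Ioo 0 T, ∃ d, HasDerivAt H d t ∧ d ≤ Φ t := by
    intro t ht
    have h1 := Pool.Agent.Q225.CC.hd_intR (F := fun s z => qf 1 (wv (u s)) z * χ z) (R := R') hF
      (fun s _ z hz => by rw [hz0 z hz, mul_zero]) ht
    refine ⟨_, h1, ?_⟩
    set τ : Fin 3 → V → ℝ := fun i y => deriv (fun s => u s y i) t with hτd
    have hdw : ∀ i x, HasDerivAt (fun s => wv (u s) i x) (crl τ (aI i) (bI i) x) t := by
      intro i x
      exact (dt_pdI (f := fun s y => u s y (bI i)) (hvi _) ht (aI i) x).sub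
        (dt_pdI (f := fun s y => u s y (aI i)) (hvi _) ht (bI i) x)
    have hdq : ∀ x, deriv (fun s => qf 1 (wv (u s)) x * χ x) t =
        (∑ i, wv (u t) i x * crl τ (aI i) (bI i) x) / qf 1 (wv (u t)) x * χ x := by
      intro x
      have e1 : HasDerivAt (fun s => ∑ i, wv (u s) i x ^ 2 + (1 : ℝ) ^ 2)
          (∑ i, 2 * (wv (u t) i x * crl τ (aI i) (bI i) x)) t := by
        refine HasDerivAt.add_const _ ?_
        refine HasDerivAt.fun_sum fun i _ => ?_
        refine ((hdw i x).pow 2).congr_deriv ?_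
        push_cast
        ring
      have e2 := e1.sqrt (arg_pos one_pos (wv (u t)) x).ne'
      have e3 : HasDerivAt (fun s => qf 1 (wv (u s)) x)
          ((∑ i, wv (u t) i x * crl τ (aI i) (bI i) x) / qf 1 (wv (u t)) x) t := by
        refine e2.congr_deriv ?_
        have hq := qf_pos one_pos (wv (u t)) x
        have : √(∑ i, wv (u t) i x ^ 2 + (1 : ℝ) ^ 2) = qf 1 (wv (u t)) x := rfl
        rw [this, ← Finset.mul_sum]
        field_simp
      exact (e3.mul_const (χ x)).deriv
    simp_rw [hdq]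
    have h2 := one_timeL h.openO (hsl t ht) (h.divfree t ht) (q := p t) (slice h.smooth_p ht)
      (τ := τ) (fun i => sm_dtI (f := fun t y => u t y i) (hvi i) ht) (fun i x hx => by
        have m := h.momentum t ht x hx i
        show deriv (fun s => u s x i) t = _
        unfold lap conv
        linarith) hχ hχ0 hχ1 hSc hRO hχS hD0 hD1 hD2
    refine h2.trans ?_
    have h3 : ∫ x in S, W221.NS.nsq (u t) x ≤ E := by
      refine le_trans ?_ (h.en t ht)
      exact setIntegral_mono_set (h.en_int t ht) (Eventually.of_forall fun x =>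
        Finset.sum_nonneg fun i _ => sq_nonneg _) hRO.eventuallyLE
    have h4 := mul_le_mul_of_nonneg_left h3 hD0
    rw [hΦd]
    simp only
    rw [hg]
    linarith
  -- integrability of the bound
  have hgi : IntegrableOn g (Ioo 0 T) := by
    have e1 : IntegrableOn (fun z : ℝ × V => W221.NS.gsq (u z.1) z.2) (Ioo 0 T ×ˢ S) :=
      h.dis.mono_set (prod_mono subset_rfl hRO)
    rw [IntegrableOn, Measure.volume_eq_prod, ← Measure.prod_restrict] at e1
    exact e1.integral_prod_left
  have hg0 : ∀ s, 0 ≤ g s := fun s => integral_nonneg fun x =>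
    Finset.sum_nonneg fun i _ => Finset.sum_nonneg fun j _ => sq_nonneg _
  have hE0 : 0 ≤ E := by
    refine le_trans ?_ (h.en T₀ ⟨hT₀, hT₀T⟩)
    exact integral_nonneg fun x => Finset.sum_nonneg fun i _ => sq_nonneg _
  have hΦ0 : ∀ s, 0 ≤ Φ s := by
    intro s
    have := hg0 s
    rw [hΦd]
    positivity
  have hΦi : IntegrableOn Φ (Ioo 0 T) :=
    (hgi.const_mul (8 * D + 18)).add (integrableOn_const (by simp))
  have hq0 : ∀ s x, 0 ≤ qf 1 (wv (u s)) x * χ x := fun s x =>
    mul_nonneg (qf_pos one_pos _ x).le (hχ0 x)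
  refine ⟨H T₀ + (∫ s in Ioo 0 T, Φ s) + 1, ?_, fun t ht => ?_⟩
  · have e1 : 0 ≤ H T₀ := integral_nonneg fun x => hq0 T₀ x
    have e2 : 0 ≤ ∫ s in Ioo 0 T, Φ s := integral_nonneg fun s => hΦ0 s
    linarith
  · have ht0 : t ∈ Ioo 0 T := ⟨hT₀.trans_le ht.1, ht.2⟩
    have hsub : Icc T₀ t ⊆ Ioo 0 T := fun s hs => ⟨hT₀.trans_le hs.1, hs.2.trans_lt ht.2⟩
    have hcont : ContinuousOn H (Icc T₀ t) := fun s hs => by
      obtain ⟨d, hd, _⟩ := hder s (hsub hs)
      exact hd.continuousAt.continuousWithinAt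
    choose! d hd hle using hder
    have key := intervalIntegral.sub_le_integral_of_hasDeriv_right_of_le (g := H) (g' := d)
      (φ := Φ) ht.1 hcont
      (fun s hs => (hd s (hsub (Ioo_subset_Icc_self hs))).hasDerivWithinAt)
      (hΦi.mono_set hsub) (fun s hs => hle s (hsub (Ioo_subset_Icc_self hs)))
    have e1 : ∫ s in T₀..t, Φ s ≤ ∫ s in Ioo 0 T, Φ s := by
      rw [intervalIntegral.integral_of_le ht.1]
      refine setIntegral_mono_set hΦi (Eventually.of_forall fun s => hΦ0 s) ?_
      exact Filter.Eventually.of_forall fun s hs => ⟨hT₀.trans hs.1, hs.2.trans_lt ht.2⟩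
    have hom : ∀ x, om (u t) x ≤ qf 1 (wv (u t)) x := by
      intro x
      unfold om len qf
      refine Real.sqrt_le_sqrt ?_
      have e2 : vort (u t) x ⬝ᵥ vort (u t) x = ∑ i, wv (u t) i x ^ 2 := by
        unfold dotProduct
        refine Finset.sum_congr rfl fun i _ => ?_
        rw [vort_eq]
        unfold wv
        ring
      rw [e2]
      norm_num
    have hQc : Continuous fun x => qf 1 (wv (u t)) x * χ x := (slice
      (F := fun s x => qf 1 (wv (u s)) x * χ x) hF ht0).continuous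
    have hQi : Integrable fun x => qf 1 (wv (u t)) x * χ x := int_cs hQc hχc.mul_left
    have homc : Continuous (om (u t)) := by
      have e3 : om (u t) = fun x => √(∑ i, wv (u t) i x ^ 2) := by
        funext x
        unfold om len
        congr 1
        unfold dotProduct
        refine Finset.sum_congr rfl fun i _ => ?_
        rw [vort_eq]
        unfold wv
        ring
      rw [e3]
      exact Real.continuous_sqrt.comp (continuous_finsetSum _ fun i _ =>
        ((sm_crl (hsl t ht0) _ _).continuous).pow 2)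
    have e4 : ∫ y in closedBall a (R / 2), om (u t) y ≤ H t := by
      rw [← integral_indicator measurableSet_closedBall]
      refine integral_mono ((integrable_indicator_iff measurableSet_closedBall).2
        (homc.continuousOn.integrableOn_compact (isCompact_closedBall _ _))) hQi fun x => ?_
      simp only
      by_cases hx : x ∈ closedBall a (R / 2)
      · rw [indicator_of_mem hx, hχ2 x hx, mul_one]
        exact hom x
      · rw [indicator_of_notMem hx]
        exact hq0 t x
    linarith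

end Pool.Agent.Q81.CL
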