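import Pool.Agent.Q67.VD.Dec3
import Pool.Agent.Q85.CL.Defs

/-!
Project CL (helper85), job DEC: the local form of the decomposition of the solution of
`Δ f = div G` in a small part and a part with a bounded gradient.
-/

set_option autoImplicit false

open MeasureTheory Set Metric Filter Topology
open scoped ContDiff
open H459R3.NS Pool.Agent.W268.NS Pool.Agent.Q67.VD

namespace Pool.Agent.Q81.CL

open Pool.Agent.Q153.VD (nn nn_nonneg nn_ge nn_smul nn_smooth s P E D A T Cut smooth_pd diff_of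
  pd_coord smoothA smoothT smoothP A_zero T_zero pd_Gam sum_pd_A)

section

variable {χ : V → ℝ} {K : ℝ}

/-- the basic identity, local form -/
theorem identL (h : Cut χ K) {ε : ℝ} (hε : 0 < ε) {w : V → ℝ} (hw : ContDiff ℝ ∞ w)
    {g : Fin 3 → V → ℝ} (hg : ∀ i, ContDiff ℝ ∞ (g i))
    (hlap : ∀ z, ‖z‖ ≤ 1 → lap w z = ∑ i, pd i (g i) z) :
    ∫ z, w z * (χ z * D ε z) =
      (∑ i, ∫ z, w z * T χ ε i z) + ∑ i, ∫ z, g i z * A χ ε i z := by
  set Γ : V → ℝ := fun y => χ y * P ε y with hΓ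
  have hΓs : ContDiff ℝ ∞ Γ := h.smooth.mul (smoothP hε)
  have hΓc : HasCompactSupport Γ := h.cs.mul_right
  have hAc : ∀ i, HasCompactSupport (A χ ε i) := fun i =>
    Pool.Agent.Q153.VD.cs_of (A_zero h ε i)
  have hTc : ∀ i, HasCompactSupport (T χ ε i) := fun i =>
    Pool.Agent.Q153.VD.cs_of (T_zero h ε i)
  have hpA : ∀ i, pd i Γ = A χ ε i := fun i => funext fun z => pd_Gam h hε i z
  have e1 : ∀ i, ∫ z, g i z * A χ ε i z = -∫ z, pd i (g i) z * Γ z := by
    intro i
    rw [← hpA i]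
    exact Pool.Agent.Q153.VD.ibp_cs (hg i) hΓs hΓc i
  have e2 : ∀ i, ∫ z, w z * pd i (A χ ε i) z = ∫ z, pd i (pd i w) z * Γ z := by
    intro i
    rw [Pool.Agent.Q153.VD.ibp_cs hw (smoothA h hε i) (hAc i) i, ← hpA i,
      Pool.Agent.Q153.VD.ibp_cs (smooth_pd hw i) hΓs hΓc i, neg_neg]
  have i1 : ∀ i, Integrable (fun z => pd i (g i) z * Γ z) := fun i =>
    ((smooth_pd (hg i) i).continuous.mul hΓs.continuous).integrable_of_hasCompactSupport
      hΓc.mul_left
  have i2 : ∀ i, Integrable (fun z => pd i (pd i w) z * Γ z) := fun i =>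
    ((smooth_pd (smooth_pd hw i) i).continuous.mul
      hΓs.continuous).integrable_of_hasCompactSupport hΓc.mul_left
  have i3 : ∀ i, Integrable (fun z => w z * pd i (A χ ε i) z) := fun i =>
    (hw.continuous.mul (smooth_pd (smoothA h hε i) i).continuous).integrable_of_hasCompactSupport
      ((hAc i).fderiv_apply ℝ (Pi.single i 1)).mul_left
  have i4 : ∀ i, Integrable (fun z => w z * T χ ε i z) := fun i =>
    (hw.continuous.mul (smoothT h hε i).continuous).integrable_of_hasCompactSupport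
      (hTc i).mul_left
  have e3 : ∑ i, ∫ z, w z * pd i (A χ ε i) z = -∑ i, ∫ z, g i z * A χ ε i z := by
    simp only [e1, e2]
    rw [Finset.sum_neg_distrib, neg_neg, ← integral_finset_sum _ (fun i _ => i1 i),
      ← integral_finset_sum _ (fun i _ => i2 i)]
    congr 1
    funext z
    rw [← Finset.sum_mul, ← Finset.sum_mul]
    by_cases hz : ‖z‖ ≤ 1
    · rw [← hlap z hz]
      rfl
    · have h0 : Γ z = 0 := by
        rw [hΓ]
        simp only
        rw [h.supp z (not_le.1 hz), zero_mul]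
      rw [h0, mul_zero, mul_zero]
  have e4 : (fun z => w z * (χ z * D ε z)) =
      fun z => ∑ i, w z * T χ ε i z - ∑ i, w z * pd i (A χ ε i) z := by
    funext z
    rw [← Finset.mul_sum, ← Finset.mul_sum, sum_pd_A h hε]
    ring
  rw [e4, integral_sub (integrable_finset_sum _ fun i _ => i4 i)
    (integrable_finset_sum _ fun i _ => i3 i), integral_finset_sum _ (fun i _ => i4 i),
    integral_finset_sum _ (fun i _ => i3 i), e3]
  ring

/-- the representation on the unit scale, local form -/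
theorem ident0L (h : Cut χ K) {w : V → ℝ} (hw : ContDiff ℝ ∞ w) {g : Fin 3 → V → ℝ}
    (hg : ∀ i, ContDiff ℝ ∞ (g i)) (hlap : ∀ z, ‖z‖ ≤ 1 → lap w z = ∑ i, pd i (g i) z) :
    w 0 * ∫ z : V, D 1 z = (∑ i, ∫ z, w z * T χ 0 i z) + ∑ i, ∫ z, g i z * A χ 0 i z := by
  refine tendsto_nhds_unique (Pool.Agent.Q153.VD.lim_D h hw.continuous) ?_
  have e : ∀ n : ℕ, ∫ z, w z * (χ z * D (1 / ((n : ℝ) + 1)) z)
      = (∑ i, ∫ z, w z * T χ (1 / ((n : ℝ) + 1)) i z)
        + ∑ i, ∫ z, g i z * A χ (1 / ((n : ℝ) + 1)) i z := fun n =>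
    identL h (by positivity) hw hg hlap
  simp_rw [e]
  refine (tendsto_finsetSum _ fun i _ => ?_).add (tendsto_finsetSum _ fun i _ => ?_)
  · refine tendsto_integral_of_dominated_convergence
      ((closedBall (0 : V) 1).indicator fun z => |w z| * (10 * K)) ?_ ?_ ?_ ?_
    · intro n
      exact (hw.continuous.mul (smoothT h (by positivity) i).continuous).aestronglyMeasurable
    · refine (integrable_indicator_iff measurableSet_closedBall).2 ?_
      exact (hw.continuous.abs.mul continuous_const).continuousOn.integrableOn_compact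
        (isCompact_closedBall 0 1)
    · intro n
      refine ae_of_all _ fun z => ?_
      rw [Real.norm_eq_abs]
      by_cases h2 : z ∈ closedBall (0 : V) 1
      · rw [indicator_of_mem h2, abs_mul]
        exact mul_le_mul_of_nonneg_left (Pool.Agent.Q153.VD.T_le h (by positivity) i z)
          (abs_nonneg _)
      · rw [indicator_of_notMem h2]
        rw [mem_closedBall, dist_zero_right, not_le] at h2
        rw [T_zero h _ i z h2, mul_zero, abs_zero]
    · filter_upwards [ae_ne_zero] with z hz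
      exact (T_lim hz i).const_mul _
  · refine tendsto_integral_of_dominated_convergence
      ((closedBall (0 : V) 1).indicator fun z => (K + 1) * (|g i z| / ‖z‖ ^ 2)) ?_ ?_ ?_ ?_
    · intro n
      exact ((hg i).continuous.mul (smoothA h (by positivity)
        i).continuous).aestronglyMeasurable
    · refine (integrable_indicator_iff measurableSet_closedBall).2 ?_
      exact (Pool.Agent.Q153.VD.int_pot (hg i).continuous).const_mul _
    · intro n
      filter_upwards [ae_ne_zero] with z hz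
      rw [Real.norm_eq_abs]
      by_cases h2 : z ∈ closedBall (0 : V) 1
      · rw [indicator_of_mem h2, abs_mul]
        have h3 := Pool.Agent.Q153.VD.A_le h (ε := 1 / ((n : ℝ) + 1)) (by positivity) i z hz
        calc |g i z| * |A χ (1 / ((n : ℝ) + 1)) i z|
            ≤ |g i z| * ((K + 1) * (‖z‖ ^ 2)⁻¹) := by gcongr
          _ = (K + 1) * (|g i z| / ‖z‖ ^ 2) := by ring
      · rw [indicator_of_notMem h2]
        rw [mem_closedBall, dist_zero_right, not_le] at h2
        rw [A_zero h _ i z h2, mul_zero, abs_zero]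
    · filter_upwards [ae_ne_zero] with z hz
      exact (A_lim hz i).const_mul _

/-- the representation on the scale `ρ`, local form -/
theorem reprL (h : Cut χ K) {ρ : ℝ} (hρ : 0 < ρ) {f : V → ℝ} {G : Fin 3 → V → ℝ}
    (hf : ContDiff ℝ ∞ f) (hG : ∀ i, ContDiff ℝ ∞ (G i)) (x : V)
    (hlap : ∀ y ∈ closedBall x ρ, lap f y = ∑ i, pd i (G i) y) :
    f x * ∫ z : V, D 1 z = (∑ i, ∫ z, f (x + z) * kT χ ρ i z)
      + ∑ i, ∫ z, G i (x + z) * kA χ ρ i z := by
  have h1 := ident0L h (w := fun z : V => f (x + ρ • z))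
    (Pool.Agent.Q153.VD.smooth_aff hf x ρ) (g := fun i z => ρ * G i (x + ρ • z))
    (fun i => contDiff_const.mul (Pool.Agent.Q153.VD.smooth_aff (hG i) x ρ)) (by
      intro z hz
      have hm : x + ρ • z ∈ closedBall x ρ := by
        rw [mem_closedBall, dist_eq_norm, add_sub_cancel_left, norm_smul, Real.norm_eq_abs,
          abs_of_pos hρ]
        calc ρ * ‖z‖ ≤ ρ * 1 := by gcongr
          _ = ρ := mul_one ρ
      rw [Pool.Agent.Q153.VD.lap_aff hf, hlap _ hm, Finset.mul_sum]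
      refine Finset.sum_congr rfl fun i _ => ?_
      rw [Pool.Agent.Q153.VD.pd_const_mul (Pool.Agent.Q153.VD.smooth_aff (hG i) x ρ),
        Pool.Agent.Q153.VD.pd_aff (hG i)]
      ring)
  rw [smul_zero, add_zero] at h1
  rw [h1]
  congr 1
  · refine Finset.sum_congr rfl fun i _ => ?_
    exact int_scale hρ f (T χ 0 i) x
  · refine Finset.sum_congr rfl fun i _ => ?_
    have e1 : ∀ z, ρ * G i (x + ρ • z) * A χ 0 i z = G i (x + ρ • z) * (ρ * A χ 0 i z) :=
      fun z => by ring
    simp_rw [e1]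
    rw [int_scale hρ (G i) (fun z => ρ * A χ 0 i z) x]
    congr 1
    funext z
    unfold kA
    field_simp

theorem pot_integrableL {f : V → ℝ} (hc : Continuous f) (ρ : ℝ) (x : V) :
    IntegrableOn (fun z => |f (x + z)| / ‖z‖ ^ 2) (closedBall (0 : V) ρ) := by
  have h1 : IntegrableOn (fun z : V => |f (x + z)| * (‖z‖ ^ 2)⁻¹) (closedBall 0 ρ) :=
    (ker_int ρ).continuousOn_mul (by fun_prop) (isCompact_closedBall 0 ρ)
  exact h1

theorem kA_intL (h : Cut χ K) {ρ : ℝ} (hρ : 0 < ρ) (i : Fin 3) {F : V → ℝ} (hF : Continuous F)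
    (x : V) : Integrable (fun z => F (x + z) * kA χ ρ i z) := by
  have hFc : Continuous (fun z => F (x + z)) := by fun_prop
  have h1 := (pot_integrableL hF ρ x).const_mul (K + 1)
  rw [← IntegrableOn, ← integrable_indicator_iff measurableSet_closedBall] at h1
  refine h1.mono' (hFc.measurable.mul (kA_meas h ρ i)).aestronglyMeasurable ?_
  filter_upwards [ae_ne_zero] with z hz
  by_cases h2 : z ∈ closedBall (0 : V) ρ
  · rw [indicator_of_mem h2, norm_mul, Real.norm_eq_abs, Real.norm_eq_abs]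
    calc |F (x + z)| * |kA χ ρ i z| ≤ |F (x + z)| * ((K + 1) * (‖z‖ ^ 2)⁻¹) :=
          mul_le_mul_of_nonneg_left (kA_le h hρ hz i) (abs_nonneg _)
      _ = (K + 1) * (|F (x + z)| / ‖z‖ ^ 2) := by ring
  · rw [indicator_of_notMem h2]
    rw [mem_closedBall, dist_zero_right, not_le] at h2
    rw [kA_zero h hρ h2, mul_zero, norm_zero]

theorem int_kAL (h : Cut χ K) {ρ : ℝ} (hρ : 0 < ρ) (i : Fin 3) {F : V → ℝ} (hF : Continuous F)
    (x : V) : |∫ z, F (x + z) * kA χ ρ i z| ≤ (K + 1) * pot ρ F x := by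
  have e : ∀ z, |F (x + z)| * ((K + 1) * (‖z‖ ^ 2)⁻¹) = (K + 1) * (|F (x + z)| / ‖z‖ ^ 2) :=
    fun z => by ring
  have h1 := int_bd (F := fun z => F (x + z)) (k := kA χ ρ i)
    (b := fun z => (K + 1) * (‖z‖ ^ 2)⁻¹) (S := closedBall (0 : V) ρ) measurableSet_closedBall
    (by simp_rw [e]; exact (pot_integrableL hF ρ x).const_mul _)
    (fun z hz => kA_zero h hρ (by rwa [mem_closedBall, dist_zero_right, not_le] at hz) i)
    (fun z _ hz => kA_le h hρ hz i)
  refine h1.trans (le_of_eq ?_)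
  simp_rw [e]
  rw [integral_const_mul]
  rfl

end

theorem cd_sum {F : Fin 3 → V → ℝ} (hF : ∀ i, ContDiff ℝ ∞ (F i)) :
    ContDiff ℝ ∞ (fun x => ∑ i, F i x) := ContDiff.sum fun i _ => hF i

theorem pd_sumL {F : Fin 3 → V → ℝ} (hF : ∀ i, ContDiff ℝ ∞ (F i)) (j : Fin 3) (x : V) :
    pd j (fun x => ∑ i, F i x) x = ∑ i, pd j (F i) x := by
  have h1 : HasFDerivAt (fun x => ∑ i, F i x) (∑ i, fderiv ℝ (F i) x) x :=
    HasFDerivAt.fun_sum fun i _ => (diff_of (hF i) x).hasFDerivAt
  rw [pd, h1.fderiv]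
  simp [pd]

theorem decL : Pool.Agent.Q85.CL.StmDecL := by
  obtain ⟨χ, K, h⟩ := Pool.Agent.Q153.VD.exists_cut
  have hK := h.Kpos
  obtain ⟨C1, hC1, hA⟩ := pd_A0_le h
  have hT : ∀ i j, ∃ C, ∀ z, ‖pd j (T χ 0 i) z‖ ≤ C := fun i j =>
    (smooth_pd (T0_smooth h i) j).continuous.bounded_above_of_compact_support
      ((HasCompactSupport.intro (isCompact_closedBall (0 : V) 1) fun z hz => T0_zero h (by
        rwa [mem_closedBall, dist_zero_right, not_le] at hz) i).fderiv_apply ℝ (Pi.single j 1))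
  choose B hB using hT
  have hB0 : ∀ i j, 0 ≤ B i j := fun i j => (norm_nonneg _).trans (hB i j 0)
  set C2 : ℝ := ∑ i, ∑ j, B i j with hC2
  have hC20 : 0 ≤ C2 := Finset.sum_nonneg fun i _ => Finset.sum_nonneg fun j _ => hB0 i j
  have hT2 : ∀ i j z, |pd j (T χ 0 i) z| ≤ C2 := by
    intro i j z
    refine (hB i j z).trans ?_
    exact (Finset.single_le_sum (f := fun j => B i j) (fun j _ => hB0 i j)
      (Finset.mem_univ j)).trans (Finset.single_le_sum (f := fun i => ∑ j, B i j)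
        (fun i _ => Finset.sum_nonneg fun j _ => hB0 i j) (Finset.mem_univ i))
  set c : ℝ := ∫ z : V, D 1 z with hc
  have hc0 : 0 < c := Pool.Agent.Q153.VD.D_int_pos
  refine ⟨c⁻¹ * (K + 1 + 2 * C1 + 3 * C2), by positivity, ?_⟩
  intro ρ L f G a hρ hL hf hG hlap
  have hL0 : 0 < L := hρ.trans_le hL
  have s1 : ∀ i, ContDiff ℝ ∞ (fun x => ∫ z, f (x + z) * kT χ ρ i z) := fun i =>
    (conv_smooth hf.continuous (kT_smooth h ρ i) (kT_cs h hρ i)).1
  have s2 : ∀ i, ContDiff ℝ ∞ (fun x => ∫ z, f (x + z) * kT χ L i z) := fun i =>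
    (conv_smooth hf.continuous (kT_smooth h L i) (kT_cs h hL0 i)).1
  have s3 : ∀ i, ContDiff ℝ ∞ (fun x => ∫ z, G i (x + z) * kd χ ρ L i z) := fun i =>
    (conv_smooth (hG i).continuous (kd_smooth h hρ hL i) (kd_cs h hρ hL i)).1
  have loc : ∀ x ∈ ball a (2 * L), ∀ R : ℝ, R ≤ L →
      ∀ y ∈ closedBall x R, lap f y = ∑ i, pd i (G i) y := by
    intro x hx R hR y hy
    refine hlap y ?_
    rw [mem_ball] at hx ⊢
    rw [mem_closedBall] at hy
    calc dist y a ≤ dist y x + dist x a := dist_triangle _ _ _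
      _ < 3 * L := by linarith
  have key : ∀ x ∈ ball a (2 * L), ∑ i, ∫ z, f (x + z) * kT χ ρ i z
      = (∑ i, ∫ z, f (x + z) * kT χ L i z) + ∑ i, ∫ z, G i (x + z) * kd χ ρ L i z := by
    intro x hx
    have r1 := reprL h hρ hf hG x (loc x hx ρ hL)
    have r2 := reprL h hL0 hf hG x (loc x hx L le_rfl)
    have r3 : ∀ i, ∫ z, G i (x + z) * kd χ ρ L i z
        = (∫ z, G i (x + z) * kA χ L i z) - ∫ z, G i (x + z) * kA χ ρ i z := by
      intro i
      rw [← integral_sub (kA_intL h hL0 i (hG i).continuous x)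
        (kA_intL h hρ i (hG i).continuous x)]
      congr 1
      funext z
      unfold kd
      ring
    simp_rw [r3]
    rw [Finset.sum_sub_distrib]
    linarith
  have sub : ∀ x ∈ closedBall a L, x ∈ ball a (2 * L) := by
    intro x hx
    rw [mem_closedBall] at hx
    rw [mem_ball]
    linarith
  refine ⟨fun x => c⁻¹ * ∑ i, ∫ z, f (x + z) * kT χ ρ i z, ?_, fun x hx => ?_, fun x hx j => ?_⟩
  · exact contDiff_const.mul (cd_sum s1)
  · have r1 := reprL h hρ hf hG x (loc x (sub x hx) ρ hL)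
    have e1 : f x - c⁻¹ * ∑ i, ∫ z, f (x + z) * kT χ ρ i z
        = c⁻¹ * ∑ i, ∫ z, G i (x + z) * kA χ ρ i z := by
      have h1 : f x = c⁻¹ * (f x * c) := by field_simp
      rw [h1, r1]
      ring
    show |f x - c⁻¹ * ∑ i, ∫ z, f (x + z) * kT χ ρ i z| ≤ _
    rw [e1, abs_mul, abs_of_pos (inv_pos.2 hc0), mul_assoc]
    refine mul_le_mul_of_nonneg_left ?_ (inv_pos.2 hc0).le
    refine (Finset.abs_sum_le_sum_abs _ _).trans ?_
    rw [Finset.mul_sum]
    refine Finset.sum_le_sum fun i _ => (int_kAL h hρ i (hG i).continuous x).trans ?_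
    exact mul_le_mul_of_nonneg_right (by linarith) (pot_nonneg _ _ _)
  · have e0 : (fun x => c⁻¹ * ∑ i, ∫ z, f (x + z) * kT χ ρ i z)
        =ᶠ[𝓝 x] fun x => c⁻¹ * ((∑ i, ∫ z, f (x + z) * kT χ L i z)
          + ∑ i, ∫ z, G i (x + z) * kd χ ρ L i z) := by
      filter_upwards [isOpen_ball.mem_nhds (sub x hx)] with y hy
      rw [key y hy]
    have sA : ContDiff ℝ ∞ (fun x => ∑ i, ∫ z, f (x + z) * kT χ L i z) := cd_sum s2
    have sB : ContDiff ℝ ∞ (fun x => ∑ i, ∫ z, G i (x + z) * kd χ ρ L i z) := cd_sum s3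
    have e00 : pd j (fun x => c⁻¹ * ∑ i, ∫ z, f (x + z) * kT χ ρ i z) x
        = pd j (fun x => c⁻¹ * ((∑ i, ∫ z, f (x + z) * kT χ L i z)
          + ∑ i, ∫ z, G i (x + z) * kd χ ρ L i z)) x := by
      unfold pd
      rw [e0.fderiv_eq]
    rw [e00, pd_cmul_at (sA.add sB).contDiffAt, pd_add_at sA.contDiffAt sB.contDiffAt,
      pd_sumL s2, pd_sumL s3]
    have e2 : ∀ i, pd j (fun x => ∫ z, f (x + z) * kT χ L i z) x
        = -∫ z, f (x + z) * pd j (kT χ L i) z := fun i =>
      (conv_smooth hf.continuous (kT_smooth h L i) (kT_cs h hL0 i)).2 x j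
    have e3 : ∀ i, pd j (fun x => ∫ z, G i (x + z) * kd χ ρ L i z) x
        = -∫ z, G i (x + z) * pd j (kd χ ρ L i) z := fun i =>
      (conv_smooth (hG i).continuous (kd_smooth h hρ hL i) (kd_cs h hρ hL i)).2 x j
    simp_rw [e2, e3]
    rw [abs_mul, abs_of_pos (inv_pos.2 hc0), mul_assoc]
    refine mul_le_mul_of_nonneg_left ?_ (inv_pos.2 hc0).le
    have a1 : |∑ i, -∫ z, f (x + z) * pd j (kT χ L i) z|
        ≤ 3 * C2 * ((∫ z in closedBall (0 : V) L, |f (x + z)|) / L ^ 4) := by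
      refine (Finset.abs_sum_le_sum_abs _ _).trans ?_
      have : ∀ i ∈ (Finset.univ : Finset (Fin 3)), |-∫ z, f (x + z) * pd j (kT χ L i) z|
          ≤ C2 * ((∫ z in closedBall (0 : V) L, |f (x + z)|) / L ^ 4) := fun i _ => by
        rw [abs_neg]
        exact int_kT h hT2 hL0 i j hf.continuous x
      refine (Finset.sum_le_sum this).trans (le_of_eq ?_)
      simp only [Finset.sum_const, Finset.card_univ, Fintype.card_fin, nsmul_eq_mul]
      push_cast
      ring
    have a2 : |∑ i, -∫ z, G i (x + z) * pd j (kd χ ρ L i) z| ≤ 2 * C1 * ∑ i, far ρ L (G i) x := by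
      refine (Finset.abs_sum_le_sum_abs _ _).trans ?_
      rw [Finset.mul_sum]
      refine Finset.sum_le_sum fun i _ => ?_
      rw [abs_neg]
      exact int_kd h hA hρ hL i j (hG i).continuous x
    have b1 : 0 ≤ ∑ i, far ρ L (G i) x := Finset.sum_nonneg fun i _ =>
      integral_nonneg fun z => by positivity
    have b2 : 0 ≤ (∫ z in closedBall (0 : V) L, |f (x + z)|) / L ^ 4 :=
      div_nonneg (integral_nonneg fun z => abs_nonneg _) (by positivity)
    refine (abs_add_le _ _).trans ((add_le_add a1 a2).trans ?_)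
    nlinarith [mul_nonneg hK b1, mul_nonneg hK b2, mul_nonneg hC1.le b1, mul_nonneg hC1.le b2,
      mul_nonneg hC20 b1, mul_nonneg hC20 b2]

end Pool.Agent.Q81.CL
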